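import Pool.Agent.Lib.MP_285a10_al.Defs

/-!
Jordan algebras over a field of characteristic not 2 in which all products of five elements vanish
are special.
-/

set_option autoImplicit false

namespace Pool.Agent.Lib.MP_285a10_al

universe u v

/-- `IsProd n x`: the element `x` is a product of `n` elements (in some order and with some
bracketing). -/
inductive IsProd {J : Type v} [Mul J] : ℕ → J → Prop
  | one (a : J) : IsProd 1 a
  | mul {m n : ℕ} {a b : J} : IsProd m a → IsProd n b → IsProd (m + n) (a * b)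

namespace ClassFour

section Words
variable (F : Type u) [Field F] (J : Type v) [NonUnitalNonAssocCommRing J] [Module F J]

/-- Functions on words that are multilinear and respect the relation `ab + ba = 2 (a·b)`. -/
def W : Submodule F (List J → J) where
  carrier := {ψ |
    (∀ u v a b, ψ (u ++ a :: b :: v) + ψ (u ++ b :: a :: v) = (2 : F) • ψ (u ++ (a * b) :: v)) ∧
    (∀ u v a b, ψ (u ++ (a + b) :: v) = ψ (u ++ a :: v) + ψ (u ++ b :: v)) ∧
    (∀ u v (r : F) a, ψ (u ++ (r • a) :: v) = r • ψ (u ++ a :: v))}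
  add_mem' := by
    rintro ψ φ ⟨h1, h2, h3⟩ ⟨k1, k2, k3⟩
    refine ⟨fun u v a b => ?_, fun u v a b => ?_, fun u v r a => ?_⟩
    · simp only [Pi.add_apply, smul_add, ← h1, ← k1]; abel
    · simp only [Pi.add_apply, h2, k2]; abel
    · simp only [Pi.add_apply, h3, k3, smul_add]
  zero_mem' := by
    refine ⟨fun u v a b => ?_, fun u v a b => ?_, fun u v r a => ?_⟩ <;> simp
  smul_mem' := by
    rintro c ψ ⟨h1, h2, h3⟩
    refine ⟨fun u v a b => ?_, fun u v a b => ?_, fun u v r a => ?_⟩
    · simp only [Pi.smul_apply, ← smul_add, h1, smul_smul, mul_comm]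
    · simp only [Pi.smul_apply, h2, smul_add]
    · simp only [Pi.smul_apply, h3, smul_smul, mul_comm]

variable {F J}

theorem mem_W {ψ : List J → J} : ψ ∈ W F J ↔
    (∀ u v a b, ψ (u ++ a :: b :: v) + ψ (u ++ b :: a :: v) = (2 : F) • ψ (u ++ (a * b) :: v)) ∧
    (∀ u v a b, ψ (u ++ (a + b) :: v) = ψ (u ++ a :: v) + ψ (u ++ b :: v)) ∧
    (∀ u v (r : F) a, ψ (u ++ (r • a) :: v) = r • ψ (u ++ a :: v)) := Iff.rfl

/-- Prepending the letter `a`. -/
def rho (a : J) : W F J →ₗ[F] W F J where
  toFun ψ := ⟨fun w => ψ.1 (a :: w), by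
    obtain ⟨h1, h2, h3⟩ := mem_W.1 ψ.2
    refine mem_W.2 ⟨fun u v b c => ?_, fun u v b c => ?_, fun u v r b => ?_⟩
    · simpa using h1 (a :: u) v b c
    · simpa using h2 (a :: u) v b c
    · simpa using h3 (a :: u) v r b⟩
  map_add' ψ φ := by ext w; rfl
  map_smul' r ψ := by ext w; rfl

theorem rho_apply (a : J) (ψ : W F J) (w : List J) : (rho a ψ).1 w = ψ.1 (a :: w) := rfl

/-- If some admissible function on words restricts to the identity on words with one letter, then
`J` is special. -/
theorem isSpecial_of (g : List J → J) (hg : g ∈ W F J) (h : ∀ a, g [a] = a) (h2 : (2 : F) ≠ 0) :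
    IsSpecial.{v} F J := by
  refine ⟨Module.End F (W F J), inferInstance, inferInstance, inferInstance, inferInstance,
    { toFun := fun a => rho a, map_add' := ?_, map_smul' := ?_ }, ?_, ?_⟩
  · intro a b
    ext ψ w
    exact (mem_W.1 ψ.2).2.1 [] w a b
  · intro r a
    ext ψ w
    exact (mem_W.1 ψ.2).2.2 [] w r a
  · intro a b hab
    have : (rho a ⟨g, hg⟩ : W F J).1 [] = (rho b ⟨g, hg⟩ : W F J).1 [] := by
      have hab' : (rho a : W F J →ₗ[F] W F J) = rho b := hab
      rw [hab']
    rw [rho_apply, rho_apply] at this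
    simpa [h] using this
  · intro a b
    ext ψ w
    have h1 := (mem_W.1 ψ.2).1 [] w b a
    simp only [List.nil_append] at h1
    show ψ.1 ((a * b) :: w) = (2⁻¹ : F) • (ψ.1 (b :: a :: w) + ψ.1 (a :: b :: w))
    rw [h1, mul_comm b a, smul_smul, inv_mul_cancel₀ h2, one_smul]

end Words

section Poly
variable {F : Type u} [Field F] {J : Type v} [NonUnitalNonAssocCommRing J] [Module F J]

/-- The Jordan triple product `½ (abc + cba)`. -/
def T3 (a b c : J) : J := (a * b) * c + (b * c) * a - (a * c) * b

/-- The linearised Jordan identity. -/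
def LinJordan (J : Type v) [NonUnitalNonAssocCommRing J] : Prop :=
  ∀ a b c d : J, ((a * b) * d) * c + ((b * c) * d) * a + ((a * c) * d) * b
    = (a * b) * (c * d) + (b * c) * (a * d) + (a * c) * (b * d)

theorem linJordan (h2 : (2 : F) ≠ 0) (hJ : IsJordanAlg J) : LinJordan J := by
  intro a b c d
  have e1 := hJ (a + b + c) d
  have e2 := hJ (a + b) d
  have e3 := hJ (a + c) d
  have e4 := hJ (b + c) d
  have e5 := hJ a d
  have e6 := hJ b d
  have e7 := hJ c d
  have key : (2 : F) • (((a * b) * d) * c + ((b * c) * d) * a + ((a * c) * d) * b)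
    = (2 : F) • ((a * b) * (c * d) + (b * c) * (a * d) + (a * c) * (b * d)) := by
    simp only [mul_add, add_mul] at e1 e2 e3 e4 e5 e6 e7
    rw [mul_comm b a, mul_comm c a, mul_comm c b, mul_comm d a, mul_comm d b, mul_comm d c] at e1
    rw [mul_comm b a, mul_comm d a, mul_comm d b] at e2
    rw [mul_comm c a, mul_comm d a, mul_comm d c] at e3
    rw [mul_comm c b, mul_comm d b, mul_comm d c] at e4
    rw [mul_comm d a] at e5
    rw [mul_comm d b] at e6
    rw [mul_comm d c] at e7
    linear_combination (norm := module) (1 : F) • e1 - (1 : F) • e2 - (1 : F) • e3 - (1 : F) • e4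
      + (1 : F) • e5 + (1 : F) • e6 + (1 : F) • e7
  have := congrArg (fun x => (2⁻¹ : F) • x) key
  simpa [smul_smul, inv_mul_cancel₀ h2] using this

theorem T3_rel1 (a b c : J) : T3 a b c + T3 b a c = (2 : ℤ) • ((a * b) * c) := by
  simp only [T3]
  simp only [mul_comm]
  module

theorem T3_rel2 (a b c : J) : T3 a b c + T3 a c b = (2 : ℤ) • (a * (b * c)) := by
  simp only [T3]
  simp only [mul_comm]
  module

/-- In an associative algebra this is `[ab, c] + [bc, a] + [ca, b] = 0` for Jordan products
`ab`, `bc`, `ca`, multiplied by `d`. -/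
theorem T3_cyc (hJ : LinJordan J) (a b c d : J) :
    T3 (a * b) c d + T3 (b * c) a d + T3 (a * c) b d
      = T3 c (a * b) d + T3 a (b * c) d + T3 b (a * c) d := by
  have e := hJ a b c d
  simp only [T3]
  simp only [mul_comm] at e ⊢
  linear_combination (norm := module) - (2 : ℤ) • e

end Poly

section Basis
variable {F : Type u} [Field F] {J : Type v} [NonUnitalNonAssocCommRing J] [Module F J]
  [IsScalarTower F J J] [SMulCommClass F J J]

omit [Module F J] [IsScalarTower F J J] [SMulCommClass F J J] in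
theorem T3_add1 (a a' b c : J) : T3 (a + a') b c = T3 a b c + T3 a' b c := by
  simp only [T3, add_mul, mul_add]; abel

omit [Module F J] [IsScalarTower F J J] [SMulCommClass F J J] in
theorem T3_add2 (a a' b c : J) : T3 b (a + a') c = T3 b a c + T3 b a' c := by
  simp only [T3, add_mul, mul_add]; abel

omit [Module F J] [IsScalarTower F J J] [SMulCommClass F J J] in
theorem T3_add3 (a a' b c : J) : T3 b c (a + a') = T3 b c a + T3 b c a' := by
  simp only [T3, add_mul, mul_add]; abel

theorem T3_smul1 (r : F) (a b c : J) : T3 (r • a) b c = r • T3 a b c := by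
  simp only [T3, smul_mul_assoc, mul_smul_comm, smul_add, smul_sub]

theorem T3_smul2 (r : F) (a b c : J) : T3 b (r • a) c = r • T3 b a c := by
  simp only [T3, smul_mul_assoc, mul_smul_comm, smul_add, smul_sub]

theorem T3_smul3 (r : F) (a b c : J) : T3 b c (r • a) = r • T3 b c a := by
  simp only [T3, smul_mul_assoc, mul_smul_comm, smul_add, smul_sub]

variable {ι : Type v} [LinearOrder ι] (e : ι → J)

/-- The function `K` on basis vectors. -/
def K0 (i j k : ι) (d : J) : J :=
  if i = j then T3 (e i * e j) (e k) d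
  else if j = k then T3 (e i) (e j * e k) d
  else if i = k then (2 : ℤ) • T3 (e i * e j) (e k) d - T3 (e j) (e i * e k) d
  else if i < j ∧ i < k then T3 (e i) (e j * e k) d
  else if j < i ∧ j < k then (2 : ℤ) • T3 (e i * e j) (e k) d - T3 (e j) (e i * e k) d
  else (2 : ℤ) • T3 (e i) (e j * e k) d - (2 : ℤ) • T3 (e i * e k) (e j) d
    + T3 (e k) (e i * e j) d

omit [Module F J] [IsScalarTower F J J] [SMulCommClass F J J] in
theorem K0_rel1 (hJ : LinJordan J) (i j k : ι) (d : J) :
    K0 e i j k d + K0 e j i k d = (2 : ℤ) • T3 (e i * e j) (e k) d := by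
  rcases eq_or_ne i j with rfl | hij
  · simp only [K0, if_true]; module
  rcases eq_or_ne j k with rfl | hjk
  · simp only [K0, if_neg hij, if_neg hij.symm, if_true]
    rw [mul_comm (e j) (e i)]
    module
  rcases eq_or_ne i k with rfl | hik
  · simp only [K0, if_neg hij, if_neg hij.symm, if_true]
    module
  simp only [K0, if_neg hij, if_neg hij.symm, if_neg hjk, if_neg hik]
  by_cases h1 : i < j ∧ i < k
  · have h2 : ¬ (j < i ∧ j < k) := fun h => absurd h.1 (not_lt_of_gt h1.1)
    simp only [if_pos h1, if_neg h2]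
    rw [mul_comm (e j) (e i)]
    module
  by_cases h2 : j < i ∧ j < k
  · simp only [if_neg h1, if_pos h2]
    module
  simp only [if_neg h1, if_neg h2]
  have e1 := T3_cyc hJ (e i) (e j) (e k) d
  rw [mul_comm (e j) (e i)]
  linear_combination (norm := module) - (2 : ℤ) • e1

omit [Module F J] [IsScalarTower F J J] [SMulCommClass F J J] in
theorem K0_rel2 (hJ' : IsJordanAlg J) (hJ : LinJordan J) (i j k : ι) (d : J) :
    K0 e i j k d + K0 e i k j d = (2 : ℤ) • T3 (e i) (e j * e k) d := by
  rcases eq_or_ne i j with rfl | hij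
  · rcases eq_or_ne i k with rfl | hik
    · have e1 := hJ' (e i) d
      simp only [K0, if_true, T3]
      simp only [mul_comm] at e1 ⊢
      linear_combination (norm := module) - (4 : ℤ) • e1
    simp only [K0, if_neg hik, if_neg hik.symm, if_true]
    have e1 := T3_cyc hJ (e i) (e i) (e k) d
    linear_combination (norm := module) (1 : ℤ) • e1
  rcases eq_or_ne j k with rfl | hjk
  · simp only [K0, if_neg hij, if_true]
    module
  rcases eq_or_ne i k with rfl | hik
  · simp only [K0, if_neg hij, if_neg hij.symm, if_true]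
    have e1 := T3_cyc hJ (e i) (e i) (e j) d
    rw [mul_comm (e j) (e i)]
    linear_combination (norm := module) (1 : ℤ) • e1
  simp only [K0, if_neg hij, if_neg hjk, if_neg hjk.symm, if_neg hik]
  rw [mul_comm (e k) (e j)]
  by_cases h1 : i < j ∧ i < k
  · have h1' : i < k ∧ i < j := h1.symm
    simp only [if_pos h1, if_pos h1']
    module
  have h1' : ¬ (i < k ∧ i < j) := fun h => h1 h.symm
  by_cases h2 : j < i ∧ j < k
  · have h3 : ¬ (k < i ∧ k < j) := fun h => absurd h.2 (not_lt_of_gt h2.2)
    simp only [if_neg h1, if_neg h1', if_pos h2, if_neg h3]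
    module
  by_cases h3 : k < i ∧ k < j
  · simp only [if_neg h1, if_neg h1', if_neg h2, if_pos h3]
    module
  exfalso
  rcases lt_or_gt_of_ne hij with a | a <;> rcases lt_or_gt_of_ne hjk with c | c <;>
    rcases lt_or_gt_of_ne hik with f | f
  all_goals
    first
    | tauto
    | exact lt_irrefl _ ((a.trans c).trans f)
    | exact lt_irrefl _ ((c.trans a).trans f)

end Basis

section Multilinear
variable {F : Type u} [Field F] {J : Type v} [NonUnitalNonAssocCommRing J] [Module F J]
  [IsScalarTower F J J] [SMulCommClass F J J] {ι : Type v}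

omit [IsScalarTower F J J] [SMulCommClass F J J] in
theorem ext1 (b : Module.Basis ι F J) (f : J → J) (hadd : ∀ a a', f (a + a') = f a + f a')
    (hs : ∀ (r : F) a, f (r • a) = r • f a) (h : ∀ i, f (b i) = 0) (a : J) : f a = 0 := by
  let L : J →ₗ[F] J := { toFun := f, map_add' := hadd, map_smul' := hs }
  have hL : L = 0 := b.ext (fun i => by rw [LinearMap.zero_apply]; exact h i)
  exact DFunLike.congr_fun hL a

variable [LinearOrder ι]

omit [Module F J] [IsScalarTower F J J] [SMulCommClass F J J] in
theorem K0_add (e : ι → J) (i j k : ι) (d d' : J) :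
    K0 e i j k (d + d') = K0 e i j k d + K0 e i j k d' := by
  simp only [K0]
  split_ifs <;> simp only [T3_add3] <;> module

theorem K0_smul (e : ι → J) (i j k : ι) (r : F) (d : J) :
    K0 e i j k (r • d) = r • K0 e i j k d := by
  simp only [K0]
  split_ifs <;> simp only [T3_smul3] <;> module

/-- The function `K` on basis vectors, as a linear map in the last argument. -/
noncomputable def K0lin (b : Module.Basis ι F J) (i j k : ι) : J →ₗ[F] J where
  toFun := K0 b i j k
  map_add' := K0_add b i j k
  map_smul' := K0_smul b i j k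

/-- The function `K`. -/
noncomputable def K (b : Module.Basis ι F J) : J →ₗ[F] J →ₗ[F] J →ₗ[F] J →ₗ[F] J :=
  b.constr F fun i => b.constr F fun j => b.constr F fun k => K0lin b i j k

theorem K_basis (b : Module.Basis ι F J) (i j k : ι) (d : J) :
    K b (b i) (b j) (b k) d = K0 b i j k d := by
  simp only [K, Module.Basis.constr_basis]
  rfl

theorem K_rel1 (hJ : LinJordan J) (b : Module.Basis ι F J) (x y z d : J) :
    K b x y z d + K b y x z d = (2 : ℤ) • T3 (x * y) z d := by
  rw [← sub_eq_zero]
  refine ext1 b (fun x => K b x y z d + K b y x z d - (2 : ℤ) • T3 (x * y) z d) ?_ ?_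
    (fun i => ?_) x
  · intro a a'
    simp only [map_add, LinearMap.add_apply, add_mul, T3_add1]
    module
  · intro r a
    simp only [map_smul, LinearMap.smul_apply, smul_mul_assoc, T3_smul1]
    module
  refine ext1 b (fun y => K b (b i) y z d + K b y (b i) z d - (2 : ℤ) • T3 (b i * y) z d) ?_ ?_
    (fun j => ?_) y
  · intro a a'
    simp only [map_add, LinearMap.add_apply, mul_add, T3_add1]
    module
  · intro r a
    simp only [map_smul, LinearMap.smul_apply, mul_smul_comm, T3_smul1]
    module
  refine ext1 b (fun z => K b (b i) (b j) z d + K b (b j) (b i) z d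
    - (2 : ℤ) • T3 (b i * b j) z d) ?_ ?_ (fun k => ?_) z
  · intro a a'
    simp only [map_add, LinearMap.add_apply, T3_add2]
    module
  · intro r a
    simp only [map_smul, LinearMap.smul_apply, T3_smul2]
    module
  rw [K_basis, K_basis, K0_rel1 _ hJ, sub_self]

theorem K_rel2 (hJ' : IsJordanAlg J) (hJ : LinJordan J) (b : Module.Basis ι F J) (x y z d : J) :
    K b x y z d + K b x z y d = (2 : ℤ) • T3 x (y * z) d := by
  rw [← sub_eq_zero]
  refine ext1 b (fun x => K b x y z d + K b x z y d - (2 : ℤ) • T3 x (y * z) d) ?_ ?_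
    (fun i => ?_) x
  · intro a a'
    simp only [map_add, LinearMap.add_apply, T3_add1]
    module
  · intro r a
    simp only [map_smul, LinearMap.smul_apply, T3_smul1]
    module
  refine ext1 b (fun y => K b (b i) y z d + K b (b i) z y d - (2 : ℤ) • T3 (b i) (y * z) d) ?_ ?_
    (fun j => ?_) y
  · intro a a'
    simp only [map_add, LinearMap.add_apply, add_mul, T3_add2]
    module
  · intro r a
    simp only [map_smul, LinearMap.smul_apply, smul_mul_assoc, T3_smul2]
    module
  refine ext1 b (fun z => K b (b i) (b j) z d + K b (b i) z (b j) d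
    - (2 : ℤ) • T3 (b i) (b j * z) d) ?_ ?_ (fun k => ?_) z
  · intro a a'
    simp only [map_add, LinearMap.add_apply, mul_add, T3_add2]
    module
  · intro r a
    simp only [map_smul, LinearMap.smul_apply, mul_smul_comm, T3_smul2]
    module
  rw [K_basis, K_basis, K0_rel2 _ hJ' hJ, sub_self]

/-- Four times the function `G`, obtained from `K` by averaging over the last letter. -/
noncomputable def G (B : Module.Basis ι F J) (a b c d : J) : J :=
  K B a b c d - K B a b d c + K B a c d b - K B b c d a
    + (2 : ℤ) • (T3 a b (c * d) + T3 a (b * c) d - T3 a c (b * d) + T3 (a * b) c d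
      - T3 b (a * c) d + T3 b c (a * d))

theorem G_rel1 (hJ : LinJordan J) (B : Module.Basis ι F J) (a b c d : J) :
    G B a b c d + G B b a c d = (8 : ℤ) • T3 (a * b) c d := by
  have k1 := K_rel1 hJ B a b c d
  have k2 := K_rel1 hJ B a b d c
  simp only [G, T3] at k1 k2 ⊢
  simp only [mul_comm] at k1 k2 ⊢
  linear_combination (norm := module) (1 : ℤ) • k1 - (1 : ℤ) • k2

theorem G_rel2 (hJ' : IsJordanAlg J) (hJ : LinJordan J) (B : Module.Basis ι F J) (a b c d : J) :
    G B a b c d + G B a c b d = (8 : ℤ) • T3 a (b * c) d := by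
  have k1 := K_rel1 hJ B a b c d
  have k2 := K_rel2 hJ' hJ B a b c d
  have k3 := K_rel1 hJ B a c b d
  have k4 := K_rel2 hJ' hJ B b a c d
  have k5 := K_rel1 hJ B b c a d
  have k6 := K_rel1 hJ B b c d a
  have k7 := K_rel2 hJ' hJ B c a b d
  simp only [G, T3] at k1 k2 k3 k4 k5 k6 k7 ⊢
  simp only [mul_comm] at k1 k2 k3 k4 k5 k6 k7 ⊢
  linear_combination (norm := module) - (1 : ℤ) • k1 + (2 : ℤ) • k2 - (1 : ℤ) • k3 + (1 : ℤ) • k4
    - (1 : ℤ) • k5 - (1 : ℤ) • k6 + (1 : ℤ) • k7

theorem G_rel3 (hJ' : IsJordanAlg J) (hJ : LinJordan J) (B : Module.Basis ι F J) (a b c d : J) :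
    G B a b c d + G B a b d c = (8 : ℤ) • T3 a b (c * d) := by
  have k1 := K_rel1 hJ B a c d b
  have k2 := K_rel2 hJ' hJ B a c d b
  have k3 := K_rel1 hJ B a d c b
  have k4 := K_rel1 hJ B b c d a
  have k5 := K_rel2 hJ' hJ B b c d a
  have k6 := K_rel1 hJ B b d c a
  have k7 := K_rel2 hJ' hJ B c a d b
  have k8 := K_rel2 hJ' hJ B c b d a
  have k9 := K_rel1 hJ B c d a b
  have k10 := K_rel1 hJ B c d b a
  have k11 := K_rel2 hJ' hJ B d a c b
  have k12 := K_rel2 hJ' hJ B d b c a
  simp only [G, T3] at k1 k2 k3 k4 k5 k6 k7 k8 k9 k10 k11 k12 ⊢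
  simp only [mul_comm] at k1 k2 k3 k4 k5 k6 k7 k8 k9 k10 k11 k12 ⊢
  linear_combination (norm := module) - (1 : ℤ) • k1 + (2 : ℤ) • k2 - (1 : ℤ) • k3 + (1 : ℤ) • k4
    - (2 : ℤ) • k5 + (1 : ℤ) • k6 + (1 : ℤ) • k7 - (1 : ℤ) • k8 - (1 : ℤ) • k9 + (1 : ℤ) • k10
    + (1 : ℤ) • k11 - (1 : ℤ) • k12

end Multilinear

section Proj
variable {F : Type u} [Field F] {J : Type v} [NonUnitalNonAssocCommRing J] [Module F J]
  [IsScalarTower F J J] [SMulCommClass F J J]

variable (F J) in
/-- The square `J²` of the algebra: the span of all products. -/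
def Sq : Submodule F J := Submodule.span F {x | ∃ a b : J, x = a * b}

omit [IsScalarTower F J J] [SMulCommClass F J J] in
theorem exists_proj : ∃ π : J →ₗ[F] J, (∀ a b : J, π (a * b) = 0) ∧ ∀ x, x - π x ∈ Sq F J := by
  obtain ⟨s, hs⟩ := LinearMap.exists_rightInverse_of_surjective (Sq F J).mkQ
    (LinearMap.range_eq_top.2 (Submodule.mkQ_surjective _))
  refine ⟨s ∘ₗ (Sq F J).mkQ, fun a b => ?_, fun x => ?_⟩
  · have : (Sq F J).mkQ (a * b) = 0 := by
      rw [Submodule.mkQ_apply, Submodule.Quotient.mk_eq_zero]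
      exact Submodule.subset_span ⟨a, b, rfl⟩
    rw [LinearMap.comp_apply, this, map_zero]
  · rw [← Submodule.Quotient.mk_eq_zero, Submodule.Quotient.mk_sub]
    have : (Sq F J).mkQ (s ((Sq F J).mkQ x)) = (Sq F J).mkQ x := DFunLike.congr_fun hs _
    rw [Submodule.mkQ_apply] at this
    rw [LinearMap.comp_apply, this]
    simp

omit [SMulCommClass F J J] in
theorem one_zero (h5 : ∀ x : J, IsProd 5 x → x = 0) {u : J} (hu : u ∈ Sq F J) (b c d : J) :
    ((u * b) * c) * d = 0 := by
  induction hu using Submodule.span_induction with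
  | mem x hx =>
    obtain ⟨a, a', rfl⟩ := hx
    exact h5 _ (((((IsProd.one a).mul (IsProd.one a')).mul (IsProd.one b)).mul
      (IsProd.one c)).mul (IsProd.one d))
  | zero => simp
  | add x y _ _ h1 h2 => rw [add_mul, add_mul, add_mul, h1, h2, add_zero]
  | smul r x _ h => rw [smul_mul_assoc, smul_mul_assoc, smul_mul_assoc, h, smul_zero]

theorem three_zero (h5 : ∀ x : J, IsProd 5 x → x = 0) {u : J} (hu : u ∈ Sq F J) (a b d : J) :
    ((a * b) * u) * d = 0 := by
  induction hu using Submodule.span_induction with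
  | mem x hx =>
    obtain ⟨c, c', rfl⟩ := hx
    exact h5 _ ((((IsProd.one a).mul (IsProd.one b)).mul ((IsProd.one c).mul
      (IsProd.one c'))).mul (IsProd.one d))
  | zero => simp
  | add x y _ _ h1 h2 => rw [mul_add, add_mul, h1, h2, add_zero]
  | smul r x _ h => rw [mul_smul_comm, smul_mul_assoc, h, smul_zero]

omit [IsScalarTower F J J] in
theorem four_zero (h5 : ∀ x : J, IsProd 5 x → x = 0) {u : J} (hu : u ∈ Sq F J) (a b c : J) :
    ((a * b) * c) * u = 0 := by
  induction hu using Submodule.span_induction with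
  | mem x hx =>
    obtain ⟨d, d', rfl⟩ := hx
    exact h5 _ ((((IsProd.one a).mul (IsProd.one b)).mul (IsProd.one c)).mul
      ((IsProd.one d).mul (IsProd.one d')))
  | zero => simp
  | add x y _ _ h1 h2 => rw [mul_add, h1, h2, add_zero]
  | smul r x _ h => rw [mul_smul_comm, h, smul_zero]

omit [SMulCommClass F J J] in
theorem mid_zero (h5 : ∀ x : J, IsProd 5 x → x = 0) {u : J} (hu : u ∈ Sq F J) (b c d : J) :
    (u * b) * (c * d) = 0 := by
  induction hu using Submodule.span_induction with
  | mem x hx =>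
    obtain ⟨a, a', rfl⟩ := hx
    exact h5 _ ((((IsProd.one a).mul (IsProd.one a')).mul (IsProd.one b)).mul
      ((IsProd.one c).mul (IsProd.one d)))
  | zero => simp
  | add x y _ _ h1 h2 => rw [add_mul, add_mul, h1, h2, add_zero]
  | smul r x _ h => rw [smul_mul_assoc, smul_mul_assoc, h, smul_zero]

variable {π : J →ₗ[F] J}

theorem left_pi (h5 : ∀ x : J, IsProd 5 x → x = 0) (hπ : ∀ x, x - π x ∈ Sq F J) (a b c d : J) :
    ((a * b) * c) * d = ((π a * π b) * π c) * π d := by
  have e1 : ((a * b) * c) * d = ((π a * b) * c) * d := by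
    have := one_zero h5 (hπ a) b c d
    rwa [sub_mul, sub_mul, sub_mul, sub_eq_zero] at this
  have e2 : ((π a * b) * c) * d = ((π a * π b) * c) * d := by
    have := one_zero h5 (hπ b) (π a) c d
    rw [sub_mul, sub_mul, sub_mul, sub_eq_zero] at this
    rwa [mul_comm b, mul_comm (π b)] at this
  have e3 : ((π a * π b) * c) * d = ((π a * π b) * π c) * d := by
    have := three_zero h5 (hπ c) (π a) (π b) d
    rwa [mul_sub, sub_mul, sub_eq_zero] at this
  have e4 : ((π a * π b) * π c) * d = ((π a * π b) * π c) * π d := by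
    have := four_zero h5 (hπ d) (π a) (π b) (π c)
    rwa [mul_sub, sub_eq_zero] at this
  rw [e1, e2, e3, e4]

omit [SMulCommClass F J J] in
theorem mid_pi (h5 : ∀ x : J, IsProd 5 x → x = 0) (hπ : ∀ x, x - π x ∈ Sq F J) (a b c d : J) :
    (a * b) * (c * d) = (π a * π b) * (π c * π d) := by
  have key : ∀ a b c d : J, (a * b) * (c * d) = (π a * b) * (c * d) := by
    intro a b c d
    have := mid_zero h5 (hπ a) b c d
    rwa [sub_mul, sub_mul, sub_eq_zero] at this
  rw [key a b c d, mul_comm (π a) b, key b (π a) c d, mul_comm (π b) (π a),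
    mul_comm (π a * π b) (c * d), key c d (π a) (π b), mul_comm (π c) d, key d (π c) (π a) (π b),
    mul_comm (π d) (π c), mul_comm (π c * π d)]

theorem T3_pi1 (h5 : ∀ x : J, IsProd 5 x → x = 0) (hπ : ∀ x, x - π x ∈ Sq F J) (a b c d : J) :
    T3 (a * b) c d = T3 (π a * π b) (π c) (π d) := by
  simp only [T3]
  rw [left_pi h5 hπ a b c d, left_pi h5 hπ a b d c, mul_comm (c * d) (a * b),
    mid_pi h5 hπ a b c d, mul_comm (π c * π d)]

theorem T3_pi2 (h5 : ∀ x : J, IsProd 5 x → x = 0) (hπ : ∀ x, x - π x ∈ Sq F J) (a b c d : J) :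
    T3 a (b * c) d = T3 (π a) (π b * π c) (π d) := by
  simp only [T3]
  rw [mul_comm a (b * c), left_pi h5 hπ b c a d, left_pi h5 hπ b c d a, mul_comm (a * d) (b * c),
    mid_pi h5 hπ b c a d, mul_comm (π a * π d), mul_comm (π b * π c) (π a)]

theorem T3_pi3 (h5 : ∀ x : J, IsProd 5 x → x = 0) (hπ : ∀ x, x - π x ∈ Sq F J) (a b c d : J) :
    T3 a b (c * d) = T3 (π a) (π b) (π c * π d) := by
  simp only [T3]
  rw [mul_comm b (c * d), mul_comm a (c * d), left_pi h5 hπ c d b a, left_pi h5 hπ c d a b,
    mid_pi h5 hπ a b c d, mul_comm (π b) (π c * π d), mul_comm (π a) (π c * π d)]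

end Proj

set_option linter.unusedSimpArgs false

section Main
variable {F : Type u} [Field F] {J : Type v} [NonUnitalNonAssocCommRing J] [Module F J]
  [IsScalarTower F J J] [SMulCommClass F J J] {ι : Type v} [LinearOrder ι]

/-- The function on words. -/
noncomputable def g (B : Module.Basis ι F J) (π : J →ₗ[F] J) : List J → J
  | [] => 0
  | [a] => a
  | [a, b] => a * b
  | [a, b, c] => T3 a b c
  | [a, b, c, d] => (4⁻¹ : F) • G B (π a) (π b) (π c) (π d)
  | _ :: _ :: _ :: _ :: _ :: _ => 0

theorem g_long (B : Module.Basis ι F J) (π : J →ₗ[F] J) (l : List J) (h : 5 ≤ l.length) :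
    g B π l = 0 := by
  match l, h with
  | _ :: _ :: _ :: _ :: _ :: _, _ => rfl

theorem G_add1 (B : Module.Basis ι F J) (a a' b c d : J) :
    G B (a + a') b c d = G B a b c d + G B a' b c d := by
  simp only [G, map_add, LinearMap.add_apply, add_mul, mul_add, T3_add1, T3_add2, T3_add3]
  module

theorem G_add2 (B : Module.Basis ι F J) (a a' b c d : J) :
    G B b (a + a') c d = G B b a c d + G B b a' c d := by
  simp only [G, map_add, LinearMap.add_apply, add_mul, mul_add, T3_add1, T3_add2, T3_add3]
  module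

theorem G_add3 (B : Module.Basis ι F J) (a a' b c d : J) :
    G B b c (a + a') d = G B b c a d + G B b c a' d := by
  simp only [G, map_add, LinearMap.add_apply, add_mul, mul_add, T3_add1, T3_add2, T3_add3]
  module

theorem G_add4 (B : Module.Basis ι F J) (a a' b c d : J) :
    G B b c d (a + a') = G B b c d a + G B b c d a' := by
  simp only [G, map_add, LinearMap.add_apply, add_mul, mul_add, T3_add1, T3_add2, T3_add3]
  module

theorem G_smul1 (B : Module.Basis ι F J) (r : F) (a b c d : J) :
    G B (r • a) b c d = r • G B a b c d := by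
  simp only [G, map_smul, LinearMap.smul_apply, smul_mul_assoc, mul_smul_comm, T3_smul1, T3_smul2,
    T3_smul3]
  module

theorem G_smul2 (B : Module.Basis ι F J) (r : F) (a b c d : J) :
    G B b (r • a) c d = r • G B b a c d := by
  simp only [G, map_smul, LinearMap.smul_apply, smul_mul_assoc, mul_smul_comm, T3_smul1, T3_smul2,
    T3_smul3]
  module

theorem G_smul3 (B : Module.Basis ι F J) (r : F) (a b c d : J) :
    G B b c (r • a) d = r • G B b c a d := by
  simp only [G, map_smul, LinearMap.smul_apply, smul_mul_assoc, mul_smul_comm, T3_smul1, T3_smul2,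
    T3_smul3]
  module

theorem G_smul4 (B : Module.Basis ι F J) (r : F) (a b c d : J) :
    G B b c d (r • a) = r • G B b c d a := by
  simp only [G, map_smul, LinearMap.smul_apply, smul_mul_assoc, mul_smul_comm, T3_smul1, T3_smul2,
    T3_smul3]
  module

theorem G_zero1 (B : Module.Basis ι F J) (b c d : J) : G B 0 b c d = 0 := by
  simpa using G_smul1 B (0 : F) 0 b c d

theorem G_zero2 (B : Module.Basis ι F J) (b c d : J) : G B b 0 c d = 0 := by
  simpa using G_smul2 B (0 : F) 0 b c d

theorem G_zero3 (B : Module.Basis ι F J) (b c d : J) : G B b c 0 d = 0 := by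
  simpa using G_smul3 B (0 : F) 0 b c d

theorem G_zero4 (B : Module.Basis ι F J) (b c d : J) : G B b c d 0 = 0 := by
  simpa using G_smul4 B (0 : F) 0 b c d

theorem g_mem (h2 : (2 : F) ≠ 0) (hJ' : IsJordanAlg J) (h5 : ∀ x : J, IsProd 5 x → x = 0)
    (B : Module.Basis ι F J) (π : J →ₗ[F] J) (hπ0 : ∀ a b : J, π (a * b) = 0)
    (hπ : ∀ x, x - π x ∈ Sq F J) : g B π ∈ W F J := by
  have hJ : LinJordan J := linJordan (F := F) h2 hJ'
  have two (x : J) : (2 : F) • x = (2 : ℤ) • x := by module
  have eight (x : J) : (4⁻¹ : F) • ((8 : ℤ) • x) = (2 : F) • x := by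
    have e : (8 : ℤ) • x = (8 : F) • x := by module
    have h4 : (4 : F) ≠ 0 := by
      have : (4 : F) = 2 * 2 := by norm_num
      rw [this]
      exact mul_ne_zero h2 h2
    rw [e, smul_smul]
    congr 1
    rw [inv_mul_eq_iff_eq_mul₀ h4]
    norm_num
  refine mem_W.2 ⟨?_, ?_, ?_⟩
  · intro u v a b
    match u, v with
    | [], [] =>
      show a * b + b * a = (2 : F) • (a * b)
      rw [mul_comm b a]; module
    | [], [c] =>
      show T3 a b c + T3 b a c = (2 : F) • ((a * b) * c)
      rw [T3_rel1 a b c, two]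
    | [c], [] =>
      show T3 c a b + T3 c b a = (2 : F) • (c * (a * b))
      rw [T3_rel2 c a b, two]
    | [], [c, d] =>
      show (4⁻¹ : F) • G B (π a) (π b) (π c) (π d) + (4⁻¹ : F) • G B (π b) (π a) (π c) (π d)
        = (2 : F) • T3 (a * b) c d
      rw [← smul_add, G_rel1 hJ, eight, ← T3_pi1 h5 hπ a b c d]
    | [c], [d] =>
      show (4⁻¹ : F) • G B (π c) (π a) (π b) (π d) + (4⁻¹ : F) • G B (π c) (π b) (π a) (π d)
        = (2 : F) • T3 c (a * b) d
      rw [← smul_add, G_rel2 hJ' hJ, eight, ← T3_pi2 h5 hπ c a b d]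
    | [c, d], [] =>
      show (4⁻¹ : F) • G B (π c) (π d) (π a) (π b) + (4⁻¹ : F) • G B (π c) (π d) (π b) (π a)
        = (2 : F) • T3 c d (a * b)
      rw [← smul_add, G_rel3 hJ' hJ, eight, ← T3_pi3 h5 hπ c d a b]
    | [], [c, d, e] =>
      show (0 : J) + 0 = (2 : F) • ((4⁻¹ : F) • G B (π (a * b)) (π c) (π d) (π e))
      rw [hπ0, G_zero1]
      simp
    | [c], [d, e] =>
      show (0 : J) + 0 = (2 : F) • ((4⁻¹ : F) • G B (π c) (π (a * b)) (π d) (π e))
      rw [hπ0, G_zero2]
      simp
    | [c, d], [e] =>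
      show (0 : J) + 0 = (2 : F) • ((4⁻¹ : F) • G B (π c) (π d) (π (a * b)) (π e))
      rw [hπ0, G_zero3]
      simp
    | [c, d, e], [] =>
      show (0 : J) + 0 = (2 : F) • ((4⁻¹ : F) • G B (π c) (π d) (π e) (π (a * b)))
      rw [hπ0, G_zero4]
      simp
    | [], c :: d :: e :: f :: v => simp [g]
    | [c], d :: e :: f :: v => simp [g]
    | [c, d], e :: f :: v => simp [g]
    | [c, d, e], f :: v => simp [g]
    | c :: d :: e :: f :: u, v =>
      rw [g_long _ _ _ (by simp; omega), g_long _ _ _ (by simp; omega),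
        g_long _ _ _ (by simp; omega)]
      simp
  · intro u v a b
    match u, v with
    | [], [] => rfl
    | [], [c] => exact add_mul a b c
    | [c], [] => exact mul_add c a b
    | [], [c, d] => exact T3_add1 a b c d
    | [c], [d] => exact T3_add2 a b c d
    | [c, d], [] => exact T3_add3 a b c d
    | [], [c, d, e] => simp only [List.nil_append, g, map_add, G_add1, smul_add]
    | [c], [d, e] => simp only [List.cons_append, List.nil_append, g, map_add, G_add2, smul_add]
    | [c, d], [e] => simp only [List.cons_append, List.nil_append, g, map_add, G_add3, smul_add]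
    | [c, d, e], [] => simp only [List.cons_append, List.nil_append, g, map_add, G_add4, smul_add]
    | [], c :: d :: e :: f :: v => simp [g]
    | [c], d :: e :: f :: v => simp [g]
    | [c, d], e :: f :: v => simp [g]
    | [c, d, e], f :: v => simp [g]
    | c :: d :: e :: f :: u, v =>
      rw [g_long _ _ _ (by simp; omega), g_long _ _ _ (by simp; omega),
        g_long _ _ _ (by simp; omega)]
      simp
  · intro u v r a
    match u, v with
    | [], [] => rfl
    | [], [c] => exact smul_mul_assoc r a c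
    | [c], [] => exact mul_smul_comm r c a
    | [], [c, d] => exact T3_smul1 r a c d
    | [c], [d] => exact T3_smul2 r a c d
    | [c, d], [] => exact T3_smul3 r a c d
    | [], [c, d, e] => simp only [List.nil_append, g, map_smul, G_smul1, smul_comm (4⁻¹ : F) r]
    | [c], [d, e] =>
      simp only [List.cons_append, List.nil_append, g, map_smul, G_smul2, smul_comm (4⁻¹ : F) r]
    | [c, d], [e] =>
      simp only [List.cons_append, List.nil_append, g, map_smul, G_smul3, smul_comm (4⁻¹ : F) r]
    | [c, d, e], [] =>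
      simp only [List.cons_append, List.nil_append, g, map_smul, G_smul4, smul_comm (4⁻¹ : F) r]
    | [], c :: d :: e :: f :: v => simp [g]
    | [c], d :: e :: f :: v => simp [g]
    | [c, d], e :: f :: v => simp [g]
    | [c, d, e], f :: v => simp [g]
    | c :: d :: e :: f :: u, v =>
      rw [g_long _ _ _ (by simp; omega), g_long _ _ _ (by simp; omega)]
      simp

omit [LinearOrder ι] in
/-- Over a field of characteristic not 2, a Jordan algebra in which all products of five elements
vanish is special. -/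
theorem isSpecial (h2 : (2 : F) ≠ 0) (hJ : IsJordanAlg J)
    (h5 : ∀ x : J, IsProd 5 x → x = 0) : IsSpecial.{v} F J := by
  obtain ⟨π, hπ0, hπ⟩ := exists_proj (F := F) (J := J)
  let B := Module.Basis.ofVectorSpace F J
  let _ : LinearOrder (Module.Basis.ofVectorSpaceIndex F J) :=
    IsWellOrder.linearOrder WellOrderingRel
  exact isSpecial_of (g B π) (g_mem h2 hJ h5 B π hπ0 hπ) (fun _ => rfl) h2

end Main

end ClassFour

end Pool.Agent.Lib.MP_285a10_al
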