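import Pool.Agent.Lib.MP_285a10_al.Defs

/-!
A criterion for non-speciality: if `z x = z y = 0`, `y² z² = 0` and `y² (x z²) ≠ 0`, then the
Jordan algebra is not special.
-/

set_option autoImplicit false

namespace Pool.Agent.Lib.MP_285a10_al

theorem not_isSpecial_of.{w, u, v} {F : Type u} [Field F] (h2 : (2 : F) ≠ 0) {J : Type v}
    [NonUnitalNonAssocCommRing J] [Module F J] (x y z : J)
    (hzx : z * x = 0) (hzy : z * y = 0) (hyz : (y * y) * (z * z) = 0)
    (ht : (y * y) * (x * (z * z)) ≠ 0) : ¬ IsSpecial.{w} F J := by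
  rintro ⟨A, _, _, _, _, f, hinj, hf⟩
  have half : ∀ a : A, (2⁻¹ : F) • (a + a) = a := by
    intro a
    rw [← two_smul F a, smul_smul, inv_mul_cancel₀ h2, one_smul]
  have key : ∀ a : A, (2⁻¹ : F) • a = 0 → a = 0 := by
    intro a ha
    have := congrArg (fun b => (2 : F) • b) ha
    simpa [smul_smul, mul_inv_cancel₀ h2] using this
  set X := f x with hX
  set Y := f y with hY
  set Z := f z with hZ
  have e1 : Z * X + X * Z = 0 := key _ (by rw [← hf, hzx, map_zero])
  have e2 : Z * Y + Y * Z = 0 := key _ (by rw [← hf, hzy, map_zero])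
  have e1' : Z * X = -(X * Z) := eq_neg_of_add_eq_zero_left e1
  have e2' : Z * Y = -(Y * Z) := eq_neg_of_add_eq_zero_left e2
  have hYY : f (y * y) = Y * Y := by rw [hf, half]
  have hZZ : f (z * z) = Z * Z := by rw [hf, half]
  have cX : (Z * Z) * X = X * (Z * Z) := by
    rw [mul_assoc, e1', mul_neg, ← mul_assoc, e1', neg_mul, neg_neg, mul_assoc]
  have cY : (Z * Z) * Y = Y * (Z * Z) := by
    rw [mul_assoc, e2', mul_neg, ← mul_assoc, e2', neg_mul, neg_neg, mul_assoc]
  have cYY : (Z * Z) * (Y * Y) = (Y * Y) * (Z * Z) := by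
    rw [← mul_assoc, cY, mul_assoc, cY, ← mul_assoc]
  have h0 : (Y * Y) * (Z * Z) = 0 := by
    have := congrArg f hyz
    rw [hf, hYY, hZZ, cYY, half, map_zero] at this
    exact this
  have hC : f (x * (z * z)) = X * (Z * Z) := by rw [hf, hZZ, cX, half]
  apply ht
  apply hinj
  rw [hf, hYY, hC, map_zero]
  have h1 : (Y * Y) * (X * (Z * Z)) = 0 := by
    rw [← cX, ← mul_assoc, h0, zero_mul]
  have h3 : (X * (Z * Z)) * (Y * Y) = 0 := by
    rw [mul_assoc, cYY, h0, mul_zero]
  rw [h1, h3, add_zero, smul_zero]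

end Pool.Agent.Lib.MP_285a10_al
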