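import Mathlib

/-!
Special and non-special Jordan algebras: definitions.
-/

set_option autoImplicit false

namespace Pool.Agent.Lib.MP_285a10_al

/-- A (not necessarily unital) commutative `F`-algebra `J` is a Jordan algebra if
`(x² y) x = x² (y x)` for all `x, y`. -/
def IsJordanAlg (J : Type*) [NonUnitalNonAssocCommRing J] : Prop :=
  ∀ x y : J, ((x * x) * y) * x = (x * x) * (y * x)

/-- `J` is special if it is isomorphic to a subalgebra of `A⁺` for some associative (not
necessarily unital) `F`-algebra `A`: there is an injective `F`-linear map `f : J → A` with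
`f (x y) = ½ (f x f y + f y f x)`. -/
def IsSpecial.{w, u, v} (F : Type u) [Field F] (J : Type v) [NonUnitalNonAssocCommRing J]
    [Module F J] : Prop :=
  ∃ (A : Type w) (_ : NonUnitalRing A) (_ : Module F A) (_ : IsScalarTower F A A)
    (_ : SMulCommClass F A A) (f : J →ₗ[F] A), Function.Injective f ∧
      ∀ x y : J, f (x * y) = (2⁻¹ : F) • (f x * f y + f y * f x)

end Pool.Agent.Lib.MP_285a10_al
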