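import Pool.Agent.Lib.MP_285a10_al.Defs

/-!
A 12-dimensional non-special Jordan algebra over every commutative ring in which 2 is invertible.
-/

set_option autoImplicit false

namespace Pool.Agent.Lib.MP_285a10_al

/-- The 12-dimensional algebra with basis `x, y, z, b₁, b₂, b₃, c₁, c₂, c₃, c₄, d, t` (in this
order) and nonzero products `xy = b₁`, `y² = b₂`, `z² = b₃`, `z b₁ = c₁`, `x b₃ = c₂`,
`z b₂ = c₃`, `y b₃ = c₄`, `x c₃ = -2 d`, `y c₁ = d`, `z d = t`, `b₁ c₄ = -2 t`, `b₂ c₂ = 4 t`. -/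
def J12 (F : Type*) : Type _ := Fin 12 → F

namespace J12

variable {F : Type*}

instance [Field F] : AddCommGroup (J12 F) := inferInstanceAs (AddCommGroup (Fin 12 → F))
instance [Field F] : Module F (J12 F) := inferInstanceAs (Module F (Fin 12 → F))

variable [Field F]

instance : Mul (J12 F) where
  mul a b := ![0, 0, 0,
    a 0 * b 1 + a 1 * b 0,
    a 1 * b 1,
    a 2 * b 2,
    a 2 * b 3 + a 3 * b 2,
    a 0 * b 5 + a 5 * b 0,
    a 2 * b 4 + a 4 * b 2,
    a 1 * b 5 + a 5 * b 1,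
    -2 * (a 0 * b 8 + a 8 * b 0) + (a 1 * b 6 + a 6 * b 1),
    (a 2 * b 10 + a 10 * b 2) - 2 * (a 3 * b 9 + a 9 * b 3) + 4 * (a 4 * b 7 + a 7 * b 4)]

lemma mul_def (a b : J12 F) : a * b = ![0, 0, 0,
    a 0 * b 1 + a 1 * b 0,
    a 1 * b 1,
    a 2 * b 2,
    a 2 * b 3 + a 3 * b 2,
    a 0 * b 5 + a 5 * b 0,
    a 2 * b 4 + a 4 * b 2,
    a 1 * b 5 + a 5 * b 1,
    -2 * (a 0 * b 8 + a 8 * b 0) + (a 1 * b 6 + a 6 * b 1),
    (a 2 * b 10 + a 10 * b 2) - 2 * (a 3 * b 9 + a 9 * b 3) + 4 * (a 4 * b 7 + a 7 * b 4)] := rfl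

@[simp] lemma add_app (a b : J12 F) (i : Fin 12) : (a + b) i = a i + b i := rfl
@[simp] lemma smul_app (r : F) (a : J12 F) (i : Fin 12) : (r • a) i = r * a i := rfl
@[simp] lemma zero_app (i : Fin 12) : (0 : J12 F) i = 0 := rfl

omit [Field F] in
lemma ext' {a b : J12 F} (h : ∀ i, a i = b i) : a = b := funext h

instance : NonUnitalNonAssocCommRing (J12 F) where
  left_distrib a b c := by
    apply ext'; intro i; fin_cases i <;> simp [mul_def] <;> ring
  right_distrib a b c := by
    apply ext'; intro i; fin_cases i <;> simp [mul_def] <;> ring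
  zero_mul a := by
    apply ext'; intro i; fin_cases i <;> simp [mul_def]
  mul_zero a := by
    apply ext'; intro i; fin_cases i <;> simp [mul_def]
  mul_comm a b := by
    apply ext'; intro i; fin_cases i <;> simp [mul_def] <;> ring

instance : IsScalarTower F (J12 F) (J12 F) where
  smul_assoc r a b := by
    apply ext'; intro i; fin_cases i <;> simp [mul_def] <;> ring

instance : SMulCommClass F (J12 F) (J12 F) where
  smul_comm r a b := by
    apply ext'; intro i; fin_cases i <;> simp [mul_def] <;> ring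

lemma isJordan : IsJordanAlg (J12 F) := by
  intro a b
  apply ext'
  intro i
  fin_cases i <;> simp [mul_def] <;> ring

end J12

end Pool.Agent.Lib.MP_285a10_al
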