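import Pool.Agent.Lib.MP_285a10_al.Twelve
import Pool.Agent.Lib.MP_285a10_al.ClassFour

/-!
All products of six elements of the 12-dimensional algebra `J12` vanish.
-/

set_option autoImplicit false

namespace Pool.Agent.Lib.MP_285a10_al

namespace J12

variable {F : Type*} [Field F]

/-- The weights of the basis vectors. -/
def wt : Fin 12 → ℕ := ![1, 1, 1, 2, 2, 2, 3, 3, 3, 3, 4, 5]

theorem term_zero {m n : ℕ} {a b : J12 F} (ha : ∀ i, wt i < m → a i = 0)
    (hb : ∀ i, wt i < n → b i = 0) (p q : Fin 12) (h : wt p + wt q < m + n) : a p * b q = 0 := by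
  rcases lt_or_ge (wt p) m with h1 | h1
  · simp [ha p h1]
  · have h2 : wt q < n := by omega
    simp [hb q h2]

theorem mul_wt {m n : ℕ} {a b : J12 F} (ha : ∀ i, wt i < m → a i = 0)
    (hb : ∀ i, wt i < n → b i = 0) (i : Fin 12) (h : wt i < m + n) : (a * b) i = 0 := by
  have T := term_zero ha hb
  rw [mul_def]
  fin_cases i
  · rfl
  · rfl
  · rfl
  · show a 0 * b 1 + a 1 * b 0 = 0
    rw [T 0 1 h, T 1 0 h, add_zero]
  · exact T 1 1 h
  · exact T 2 2 h
  · show a 2 * b 3 + a 3 * b 2 = 0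
    rw [T 2 3 h, T 3 2 h, add_zero]
  · show a 0 * b 5 + a 5 * b 0 = 0
    rw [T 0 5 h, T 5 0 h, add_zero]
  · show a 2 * b 4 + a 4 * b 2 = 0
    rw [T 2 4 h, T 4 2 h, add_zero]
  · show a 1 * b 5 + a 5 * b 1 = 0
    rw [T 1 5 h, T 5 1 h, add_zero]
  · show -2 * (a 0 * b 8 + a 8 * b 0) + (a 1 * b 6 + a 6 * b 1) = 0
    rw [T 0 8 h, T 8 0 h, T 1 6 h, T 6 1 h]
    simp
  · show (a 2 * b 10 + a 10 * b 2) - 2 * (a 3 * b 9 + a 9 * b 3) + 4 * (a 4 * b 7 + a 7 * b 4) = 0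
    rw [T 2 10 h, T 10 2 h, T 3 9 h, T 9 3 h, T 4 7 h, T 7 4 h]
    simp

theorem isProd_wt {n : ℕ} {a : J12 F} (ha : IsProd n a) : ∀ i, wt i < n → a i = 0 := by
  induction ha with
  | one a =>
    intro i hi
    exfalso
    revert hi
    fin_cases i <;> simp [wt]
  | mul _ _ h1 h2 => exact fun i hi => mul_wt h1 h2 i hi

theorem isProd_six {a : J12 F} (ha : IsProd 6 a) : a = 0 := by
  apply ext'
  intro i
  apply isProd_wt ha
  fin_cases i <;> simp [wt]

end J12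

end Pool.Agent.Lib.MP_285a10_al
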